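import Pool.Agent.H96.PZ.Stmts3
import Pool.Agent.H75.S6C.SNA

/-!
# Rows NSX and BLX: no straightness above `sN`, and the fans are not constant
-/

set_option autoImplicit false

namespace Pool.PZ

open Finset Real
open Pool.Agent.H49.Ent Pool.Agent.H32.Dense Pool.STK Pool.KA Pool.KSAT Pool.K2S Pool.PB Pool.KS6
open Pool.ZCL Pool.S6C

theorem exists_of_Pe34 {Ω : Type} [Fintype Ω] {p : Ω → ℝ} {B : Ω → Prop} (h : 0 < Pe p B) :
    ∃ ω, B ω := by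
  classical
  by_contra hno
  push Not at hno
  have : Pe p B = 0 := by
    rw [Pe_eq]
    exact Finset.sum_eq_zero fun ω _ => if_neg (hno ω)
  linarith

/-- Numbers with a cap. -/
theorem num_le_cap34 {S : PCl 3} (hS : S.Ne) {c : ℝ} (hc : 0 ≤ c) {q : ℝ → Stat 3} {s : ℝ}
    (hs : PNum S (capS c q) s) : s ≤ c := by
  refine le_of_forall_pos_le_add fun h hh => ?_
  obtain ⟨J, -, F, A, -, hA⟩ := (hs.1 h hh).real hS one_pos 0
  rcases hA with hA | hA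
  · linarith only [hc, hA]
  · linarith only [hA, hA.1]

theorem num_nonneg34 {S : PCl 3} (hS : S.Ne) {c : ℝ} {q : ℝ → Stat 3} {s : ℝ}
    (hs : PNum S (capS c q) s) : 0 ≤ s := by
  by_contra hneg
  push Not at hneg
  refine Clp.not_false hS (Clp.mono (J₂ := 0) (hs.2 (-s) (by linarith)) ?_)
  intro J _ F A h
  exact h (Or.inl (by linarith))

/-- **BLX.** -/
theorem blx_thm : BLXStmt := by
  intro S a R h₁ i₀ c s₂ r D σ hC x hx
  obtain ⟨x', hx'⟩ : ∃ x', x' = min x (min h₁ 1) / 4 := ⟨_, rfl⟩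
  have hm : 0 < min x (min h₁ 1) := lt_min hx (lt_min hC.h₁0 one_pos)
  have hx0 : 0 < x' := by rw [hx']; linarith only [hm]
  have hx1 : x' ≤ x / 4 := by rw [hx']; linarith only [min_le_left x (min h₁ 1)]
  have hx2 : x' ≤ h₁ / 4 := by
    rw [hx']; linarith only [min_le_right x (min h₁ 1), min_le_left h₁ 1]
  have hx3 : x' ≤ 1 / 4 := by
    rw [hx']; linarith only [min_le_right x (min h₁ 1), min_le_right h₁ 1]
  obtain ⟨τ, hτ, J₁, hsp⟩ := spread_part hC.a1 hC.R0 hC.ub hC.st hC.lb hx0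
  obtain ⟨J₂, hJ₂⟩ := exists_nat_gt (16 / x + 16 / h₁ + 16)
  refine ⟨τ, hτ, max J₁ J₂, ?_⟩
  rintro J hJ F B hS ⟨α, hα⟩
  have hJr : 16 / x + 16 / h₁ + 16 < J :=
    hJ₂.trans_le (by exact_mod_cast (le_max_right _ _).trans hJ)
  have q1 : 0 < 16 / x := by positivity
  have q2 : 0 < 16 / h₁ := div_pos (by norm_num) hC.h₁0
  have hJx : 16 < J * x := by
    have : 16 / x < J := by linarith only [hx0, hx3, hJr, q2]
    rwa [div_lt_iff₀ hx] at this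
  have hJh₁ : 16 < J * h₁ := by
    have : 16 / h₁ < J := by linarith only [hx0, hx3, hJr, q1]
    rwa [div_lt_iff₀ hC.h₁0] at this
  have hJ0 : (0 : ℝ) ≤ J := Nat.cast_nonneg J
  have hJ16 : (16 : ℝ) < J := by linarith only [hJr, q1, q2]
  obtain ⟨q, hq⟩ : ∃ q, q = ⌈x' * J⌉₊ := ⟨_, rfl⟩
  have hq1 : x' * J ≤ q := by rw [hq]; exact Nat.le_ceil _
  have hq2 : (q : ℝ) < x' * J + 1 := by rw [hq]; exact Nat.ceil_lt_add_one (by positivity)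
  have hqJ : q ≤ J := by
    have e1 : x' * J ≤ 1 / 4 * J := mul_le_mul_of_nonneg_right hx3 hJ0
    have : (q : ℝ) ≤ J := by linarith only [hx0, hx3, hJr, q1, q2, hq2, e1]
    exact_mod_cast this
  have hqh : q + 2 ≤ ⌊h₁ * J⌋₊ := by
    refine Nat.le_floor ?_
    push_cast
    have e1 : x' * J ≤ h₁ / 4 * J := mul_le_mul_of_nonneg_right hx2 hJ0
    linarith only [hx0, hx3, hJh₁, hq2, e1]
  have hqx : q + 3 ≤ ⌊x * J⌋₊ := by
    refine Nat.le_floor ?_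
    push_cast
    have e1 : x' * J ≤ x / 4 * J := mul_le_mul_of_nonneg_right hx1 hJ0
    linarith only [hx0, hx3, hJx, hq2, e1]
  obtain ⟨B', hB', hPB', hsp'⟩ := hsp J ((le_max_left _ _).trans hJ) F B hS q hqJ hq1 hqh
  have hPB : 0 < Pe F.p B := lt_of_lt_of_le (Real.exp_pos _) (hC.st _ _ _ _ hS).2.2.2
  obtain ⟨ω, hω⟩ := exists_of_Pe34 (lt_of_lt_of_le (mul_pos (Real.exp_pos _) hPB) hPB')
  obtain ⟨ω', ω'', b1, b2, b3, b4, b5⟩ := hsp' ω hω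
  have a1 := hα ω' (hB' _ b1)
  have a2 := hα ω'' (hB' _ b2)
  rw [b3] at a1
  rw [b4] at a2
  have k1 : (1 : ℝ) / 2 ^ ⌊x * J⌋₊ ≤ 1 / 2 ^ (q + 3) := inv_mono hqx
  have k2 : (1 : ℝ) / 2 ^ (q + 3) = 1 / 2 ^ (q + 1) / 4 := by
    rw [pow_add 2 (q + 1) 2]
    field_simp
    norm_num
  have k3 : (0 : ℝ) < 1 / 2 ^ (q + 1) := by positivity
  have k4 := abs_sub (F.d ω' i₀ - α (Fam.pt F ω)) (F.d ω'' i₀ - α (Fam.pt F ω))
  have e1 : (F.d ω' i₀ - α (Fam.pt F ω)) - (F.d ω'' i₀ - α (Fam.pt F ω)) =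
      F.d ω' i₀ - F.d ω'' i₀ := by ring
  rw [e1] at k4
  linarith only [b5, a1, a2, k1, k2, k3, k4]

theorem pow_est34 {q l w P lp G : ℕ} (h : q + l + w + G + 13 ≤ P + lp) :
    (2 : ℝ) ^ q * 2 ^ l * (2 ^ w / 2 ^ P) * (1 / 2 ^ lp) ≤ 1 / 2 ^ G / 8192 := by
  have e1 : (2 : ℝ) ^ q * 2 ^ l * (2 ^ w / 2 ^ P) * (1 / 2 ^ lp) =
      2 ^ (q + l + w) / 2 ^ (P + lp) := by
    rw [pow_add, pow_add, pow_add]
    field_simp
  have e2 : (1 : ℝ) / 2 ^ G / 8192 = 1 / 2 ^ (G + 13) := by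
    rw [pow_add]
    norm_num
    ring
  rw [e1, e2, div_le_div_iff₀ (by positivity) (by positivity), one_mul, ← pow_add]
  exact pow_le_pow_right₀ (by norm_num) (by omega)

/-- **NSX.** -/
theorem nsx_thm : NSXStmt := by
  intro S a R h₁ i₀ c s₂ r D σ hC K W v₁ t e₁ hA hv0 hs1 hst γ hγ
  obtain ⟨sN, hsN⟩ : ∃ sN, sN = (σ 1).sN v₁ t := ⟨_, rfl⟩
  obtain ⟨rt, hrt⟩ : ∃ rt, rt = (σ 1).rot v₁ := ⟨_, rfl⟩
  obtain ⟨p1, hp1⟩ : ∃ p1, p1 = (σ 1).pi := ⟨_, rfl⟩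
  have he0 := hA.e0
  have he8 := hA.e8
  rw [← hrt, ← hp1] at he8
  rw [← hsN] at hs1 hst ⊢
  rw [← hp1]
  have hv1 : v₁ ≤ 1 := hA.v1.le
  have hv0r : (0 : ℝ) ≤ v₁ := by exact_mod_cast hv0
  have ht0r : (0 : ℝ) < t := by exact_mod_cast hA.t0
  have hrow := hC.row 1 one_pos le_rfl hC.D1
  have hp1le : p1 ≤ 1 := by
    rw [hp1]
    exact num_le_cap34 hC.ne zero_le_one hrow.pi
  have hrt0 : 0 ≤ rt := by
    rw [hrt]
    exact num_nonneg34 hC.ne (hrow.rot v₁ hv0 hv1)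
  have ht1 : t ≤ 1 := by
    have h1 : (σ 1).th v₁ ≤ 1 := hA.th1.le
    have h2 : (t : ℝ) ≤ 1 := hA.lt.le.trans h1
    exact_mod_cast h2
  have hsNum := hC.sN v₁ t hv0 hv1 hA.t0.le ht1
  have hsN0 : 0 ≤ sN := by
    rw [hsN]
    exact num_nonneg34 hC.ne hsNum
  obtain ⟨γ', hγ'⟩ : ∃ γ', γ' = min γ (min e₁ (1 - sN)) := ⟨_, rfl⟩
  have hγ0 : 0 < γ' := by rw [hγ']; exact lt_min hγ (lt_min he0 (by linarith only [hs1]))
  have hγ1 : γ' ≤ γ := by rw [hγ']; exact min_le_left _ _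
  have hγ2 : γ' ≤ e₁ := by rw [hγ']; exact (min_le_right _ _).trans (min_le_left _ _)
  have hγ3 : γ' ≤ 1 - sN := by rw [hγ']; exact (min_le_right _ _).trans (min_le_right _ _)
  obtain ⟨x, hx⟩ : ∃ x, x = min e₁ (min h₁ 1 / 4) := ⟨_, rfl⟩
  have hx0 : 0 < x := by
    rw [hx]
    have := lt_min hC.h₁0 one_pos
    exact lt_min he0 (by linarith only [this])
  have hxe : x ≤ e₁ := by rw [hx]; exact min_le_left _ _
  have hxh : x ≤ h₁ / 4 := by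
    rw [hx]
    refine (min_le_right _ _).trans ?_
    linarith only [min_le_left h₁ 1]
  have hx1 : x ≤ 1 / 4 := by
    rw [hx]
    refine (min_le_right _ _).trans ?_
    linarith only [min_le_right h₁ 1]
  obtain ⟨τ₁, hτ₁, J₁, hind⟩ := ind_base hC v₁ hv0 hv1 (h := e₁) (x := x) he0
    (by rw [← hrt]; linarith only [he0, he8, hp1le]) hx0
  obtain ⟨cc, hcc, J₂, hneg⟩ := Clp.neg_base
    (fun J F => capS_hered (fun s J F => qSN.hered i₀ v₁ t s J F) (sN + γ' / 2) J F)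
    (by
      have := hsNum.2 (γ' / 2) (by linarith only [hγ0])
      rw [← hsN] at this
      exact this)
  obtain ⟨J₃, hJ₃⟩ := Pool.S6K.exp_small (κ := cc / 2) (C := 4) (by linarith only [hcc]) (by norm_num)
  obtain ⟨J₄, hJ₄⟩ := exists_nat_gt (64 / γ' + 16 / h₁ + 64)
  refine ⟨e₁, he0, min τ₁ (cc / 2), lt_min hτ₁ (by linarith only [hcc]), max (max J₁ J₂) (max J₃ J₄), ?_⟩
  rintro J hJ F B hS ⟨e, n, hL⟩ ⟨iu', iN', hi', y', hI', ⟨φ', hφ'⟩, ψ', hψ'⟩ iu iN hi w P hw hP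
    y hI hφ hψ b k hb
  have hJ1 : J₁ ≤ J := (le_max_left _ _).trans ((le_max_left _ _).trans hJ)
  have hJ2 : J₂ ≤ J := (le_max_right _ _).trans ((le_max_left _ _).trans hJ)
  have hJ3 : J₃ ≤ J := (le_max_left _ _).trans ((le_max_right _ _).trans hJ)
  have hJ4 : J₄ ≤ J := (le_max_right _ _).trans ((le_max_right _ _).trans hJ)
  have hJr : 64 / γ' + 16 / h₁ + 64 < J := hJ₄.trans_le (by exact_mod_cast hJ4)
  have q1 : 0 < 64 / γ' := by positivity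
  have q2 : 0 < 16 / h₁ := div_pos (by norm_num) hC.h₁0
  have hJγ : 64 < J * γ' := by
    have : 64 / γ' < J := by linarith only [he0, he8, hp1le, hrt0, hJr, q2]
    rwa [div_lt_iff₀ hγ0] at this
  have hJh₁ : 16 < J * h₁ := by
    have : 16 / h₁ < J := by linarith only [he0, he8, hp1le, hrt0, hJr, q1]
    rwa [div_lt_iff₀ hC.h₁0] at this
  have hJ0 : (0 : ℝ) ≤ J := Nat.cast_nonneg J
  have hJ64 : (64 : ℝ) < J := by linarith only [hJr, q1, q2]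
  have hJe : 64 < J * e₁ := by
    have : J * γ' ≤ J * e₁ := mul_le_mul_of_nonneg_left hγ2 hJ0
    linarith only [hJγ, this]
  -- the scales
  obtain ⟨q, hq⟩ : ∃ q, q = ⌈x * J⌉₊ := ⟨_, rfl⟩
  have hq1 : x * J ≤ q := by rw [hq]; exact Nat.le_ceil _
  have hq2 : (q : ℝ) < x * J + 1 := by rw [hq]; exact Nat.ceil_lt_add_one (by positivity)
  have hqJ : q ≤ J := by
    have e1 : x * J ≤ 1 / 4 * J := mul_le_mul_of_nonneg_right hx1 hJ0
    have : (q : ℝ) ≤ J := by linarith only [he0, he8, hp1le, hrt0, hJr, q1, q2, hq2, e1]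
    exact_mod_cast this
  have hqh : q + 2 ≤ ⌊h₁ * J⌋₊ := by
    refine Nat.le_floor ?_
    push_cast
    have e1 : x * J ≤ h₁ / 4 * J := mul_le_mul_of_nonneg_right hxh hJ0
    linarith only [he0, he8, hp1le, hrt0, hJh₁, hq2, e1]
  have hxeJ : x * J ≤ e₁ * J := mul_le_mul_of_nonneg_right hxe hJ0
  obtain ⟨l, hl⟩ : ∃ l, l = ⌊(rt + e₁) * J⌋₊ := ⟨_, rfl⟩
  obtain ⟨lp, hlp⟩ : ∃ lp, lp = ⌊(p1 - e₁) * J⌋₊ := ⟨_, rfl⟩
  obtain ⟨G, hG⟩ : ∃ G, G = ⌊(sN + γ' / 2) * J⌋₊ := ⟨_, rfl⟩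
  obtain ⟨g, hg⟩ : ∃ g, g = ⌊(sN + γ) * J⌋₊ := ⟨_, rfl⟩
  have l1 : (l : ℝ) ≤ (rt + e₁) * J := by rw [hl]; exact Nat.floor_le (by positivity)
  have lp1 : (p1 - e₁) * J < lp + 1 := by rw [hlp]; exact Nat.lt_floor_add_one _
  have G1 : (G : ℝ) ≤ (sN + γ' / 2) * J := by rw [hG]; exact Nat.floor_le (by positivity)
  have g1 : (sN + γ) * J < g + 1 := by rw [hg]; exact Nat.lt_floor_add_one _
  have he8J : (rt + 8 * e₁) * J ≤ p1 * J := mul_le_mul_of_nonneg_right (by linarith only [he8]) hJ0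
  have hγ2J : γ' * J ≤ e₁ * J := mul_le_mul_of_nonneg_right hγ2 hJ0
  have hγ1J : γ' * J ≤ γ * J := mul_le_mul_of_nonneg_right hγ1 hJ0
  have c1 : l + q + 5 ≤ lp := by
    have : ((l + q + 5 : ℕ) : ℝ) ≤ (lp : ℝ) := by
      push_cast
      linarith only [he0, he8, hp1le, hrt0, hJe, hq2, hxeJ, l1, lp1, he8J]
    exact_mod_cast this
  have c2 : G + 3 ≤ g := by
    have : ((G + 3 : ℕ) : ℝ) ≤ (g : ℝ) := by
      push_cast
      linarith only [he0, he8, hp1le, hrt0, hJγ, G1, g1, hγ1J]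
    exact_mod_cast this
  obtain ⟨w', hw'⟩ : ∃ w', w' = ⌊(v₁ : ℝ) * J⌋₊ := ⟨_, rfl⟩
  obtain ⟨P', hP'⟩ : ∃ P', P' = ⌊(t : ℝ) * J⌋₊ := ⟨_, rfl⟩
  have w1 : (w' : ℝ) ≤ v₁ * J := by rw [hw']; exact Nat.floor_le (by positivity)
  have P1 : (t : ℝ) * J < P' + 1 := by rw [hP']; exact Nat.lt_floor_add_one _
  have hstJ : sN * J ≤ (t - v₁ + e₁) * J := mul_le_mul_of_nonneg_right hst.le hJ0
  have c3 : q + l + w + G + 13 ≤ P + lp := by
    have : ((q + l + w + G + 13 : ℕ) : ℝ) ≤ ((P + lp : ℕ) : ℝ) := by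
      push_cast
      linarith only [he0, he8, hp1le, hrt0, hP, hJe, hq2, hxeJ, l1, lp1, G1, he8J, hγ2J]
    exact_mod_cast this
  have c4 : q + l + w' + G + 13 ≤ P' + lp := by
    have : ((q + l + w' + G + 13 : ℕ) : ℝ) ≤ ((P' + lp : ℕ) : ℝ) := by
      push_cast
      linarith only [he0, he8, hp1le, hrt0, hJe, hq2, hxeJ, l1, lp1, G1, he8J, hγ2J, w1, P1, hstJ]
    exact_mod_cast this
  rw [← hw', ← hP'] at hI'
  rw [← hw'] at hψ'
  obtain ⟨B', hB', hPB', b', k', hb'⟩ := hind J hJ1 F B (S.mono (min_le_left _ _) hS) q lp hqJ hq1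
    hqh (by rw [← hrt, ← hl]; exact c1) e n (by rw [hlp]; exact hL) iu iN iu' iN' hi hi' w w' P P'
    hw (by rw [hw']) y y' hI hI' hφ ⟨φ', hφ'⟩ hψ ⟨ψ', hψ'⟩ g b k (by
      intro ω hω
      have := hb ω hω
      rw [hg]
      exact this)
  rw [← hrt, ← hl] at hb'
  -- the contradiction
  have hPB0 := Pe_nonneg F.isLaw B
  have hSc : S.St cc J F B' := by
    have h1 := S.res (τ' := cc / 2) (by linarith only [hcc]) (S.mono (min_le_right _ _) hS) hB' (by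
      have h2 := mul_le_mul_of_nonneg_right (hJ₃ J hJ3) hPB0
      linarith only [hPB', h2])
    rwa [add_halves] at h1
  refine hneg J hJ2 F B' hSc (Or.inr ⟨by linarith only [hs1, hγ3], iu', iN', hi', y', ?_, ⟨φ', ?_⟩, ⟨ψ', ?_⟩, b',
    k', ?_⟩)
  · intro ω hω
    rw [← hw', ← hP']
    exact hI' ω (hB' ω hω)
  · exact fun ω hω => hφ' ω (hB' ω hω)
  · intro ω hω
    rw [← hw']
    exact hψ' ω (hB' ω hω)
  · intro ω hω
    refine (hb' ω hω).trans ?_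
    rw [← hG]
    have k1 := pow_est34 c3
    have k2 := pow_est34 c4
    have k3 : (1 : ℝ) / 2 ^ g ≤ 1 / 2 ^ (G + 3) := inv_mono c2
    have k4 : (1 : ℝ) / 2 ^ (G + 3) = 1 / 2 ^ G / 8 := by
      rw [pow_add]
      field_simp
      norm_num
    have k5 : (0 : ℝ) < 1 / 2 ^ G := by positivity
    have e1 : 1600 * (2 : ℝ) ^ q * 2 ^ l * (2 ^ w / 2 ^ P + 2 ^ w' / 2 ^ P') * (1 / 2 ^ lp) =
        1600 * (2 ^ q * 2 ^ l * (2 ^ w / 2 ^ P) * (1 / 2 ^ lp)) +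
        1600 * (2 ^ q * 2 ^ l * (2 ^ w' / 2 ^ P') * (1 / 2 ^ lp)) := by ring
    rw [e1]
    linarith only [k1, k2, k3, k4, k5]

end Pool.PZ
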