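import Pool.Agent.H96.PZ.Stmts3
import Pool.Agent.H55.PZ.Zsp

/-!
# Row ROX: the rotation, from the zoom to the exact points
-/

set_option autoImplicit false

namespace Pool.PZ

open Finset Real
open Pool.Agent.H49.Ent Pool.Agent.H32.Dense Pool.STK Pool.KA Pool.KSAT Pool.K2S Pool.PB Pool.KS6
open Pool.ZCL Pool.S6C

/-- Bound of the plank coordinates. -/
theorem pkc_bd34 {i₀ iu : Fin 3} {lam n : ℕ} (hln : lam ≤ n) {k : Fr}
    (h1 : |k.1| ≤ 2) (h2 : |k.2.1| ≤ 4) (h3 : |k.2.2| ≤ 4) {x y : Fin 3 → ℝ}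
    (hxy : ∀ j, |x j - y j| ≤ 1) (i : Fin 3) :
    |(pkC lam n i₀ iu).L k x i - (pkC lam n i₀ iu).L k y i| ≤ 9 * 2 ^ n := by
  have p0 : (1 : ℝ) ≤ 2 ^ n := one_le_pow₀ (by norm_num)
  have p1 : (2 : ℝ) ^ lam ≤ 2 ^ n := pow_le_pow_right₀ (by norm_num) hln
  have p2 : (0 : ℝ) < 2 ^ lam := by positivity
  unfold pkC
  simp only
  split_ifs with hi hj
  · exact (hxy i₀).trans (by linarith)
  · have e1 : 2 ^ lam * (x iu - k.1 * x i₀) - 2 ^ lam * (y iu - k.1 * y i₀) =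
        2 ^ lam * ((x iu - y iu) - k.1 * (x i₀ - y i₀)) := by ring
    rw [e1, abs_mul, abs_of_pos p2]
    have e2 : |(x iu - y iu) - k.1 * (x i₀ - y i₀)| ≤ 3 := by
      refine (abs_sub _ _).trans ?_
      rw [abs_mul]
      have := mul_le_mul h1 (hxy i₀) (abs_nonneg _) (by norm_num)
      linarith [hxy iu]
    have e3 : (2 : ℝ) ^ lam * |(x iu - y iu) - k.1 * (x i₀ - y i₀)| ≤ 2 ^ lam * 3 :=
      mul_le_mul_of_nonneg_left e2 p2.le
    linarith
  · have e1 : 2 ^ n * (k.2.1 * x i₀ + k.2.2 * x iu + x i) -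
        2 ^ n * (k.2.1 * y i₀ + k.2.2 * y iu + y i) =
        2 ^ n * (k.2.1 * (x i₀ - y i₀) + k.2.2 * (x iu - y iu) + (x i - y i)) := by ring
    rw [e1, abs_mul, abs_of_pos (by positivity)]
    have e2 : |k.2.1 * (x i₀ - y i₀) + k.2.2 * (x iu - y iu) + (x i - y i)| ≤ 9 := by
      have t1 := abs_add_le (k.2.1 * (x i₀ - y i₀) + k.2.2 * (x iu - y iu)) (x i - y i)
      have t2 := abs_add_le (k.2.1 * (x i₀ - y i₀)) (k.2.2 * (x iu - y iu))
      rw [abs_mul, abs_mul] at t2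
      have t3 := mul_le_mul h2 (hxy i₀) (abs_nonneg _) (by norm_num)
      have t4 := mul_le_mul h3 (hxy iu) (abs_nonneg _) (by norm_num)
      linarith [hxy i]
    have e3 : (2 : ℝ) ^ n * |k.2.1 * (x i₀ - y i₀) + k.2.2 * (x iu - y iu) + (x i - y i)| ≤
        2 ^ n * 9 := mul_le_mul_of_nonneg_left e2 (by positivity)
    linarith

/-- The velocities of a plank in its coordinates. -/
theorem pkc_vel34 {i₀ iu iN : Fin 3} (hi : ∀ j : Fin 3, j = i₀ ∨ j = iu ∨ j = iN)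
    {w lam P : ℕ} (hwP : w + lam ≤ P) {y : Pln} {t t' : ℝ} {x x' d d' : Fin 3 → ℝ}
    (h : Inc i₀ iu iN w lam P 20 y t x d) (h' : Inc i₀ iu iN w lam P 20 y t' x' d') (i : Fin 3) :
    |(pkC lam (P - w) i₀ iu).L (fr y) d i - (pkC lam (P - w) i₀ iu).L (fr y) d' i| ≤ 40 := by
  obtain ⟨s, rfl⟩ := Nat.exists_eq_add_of_le (show w ≤ P by omega)
  have p2 : (0 : ℝ) < 2 ^ lam := by positivity
  have p3 : (0 : ℝ) < 2 ^ s := by positivity
  rw [Nat.add_sub_cancel_left]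
  unfold pkC fr
  simp only
  split_ifs with hi0 hj
  · have e1 : d i₀ - d' i₀ = (d i₀ - y.db i₀) - (d' i₀ - y.db i₀) := by ring
    rw [e1]
    refine (abs_sub _ _).trans ?_
    linarith [h.ve, h'.ve]
  · have e1 : 2 ^ lam * (d iu - y.e * d i₀) - 2 ^ lam * (d' iu - y.e * d' i₀) =
        2 ^ lam * ((fu i₀ iu y.e d - fu i₀ iu y.e y.db) -
          (fu i₀ iu y.e d' - fu i₀ iu y.e y.db)) := by
      unfold fu
      ring
    rw [e1, abs_mul, abs_of_pos p2]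
    have k1 := h.vu
    have k2 := h'.vu
    have k3 := abs_sub (fu i₀ iu y.e d - fu i₀ iu y.e y.db) (fu i₀ iu y.e d' - fu i₀ iu y.e y.db)
    have k4 : (2 : ℝ) ^ lam * (20 / 2 ^ lam) = 20 := by field_simp
    have k5 := mul_le_mul_of_nonneg_left k1 p2.le
    have k6 := mul_le_mul_of_nonneg_left k2 p2.le
    have k7 := mul_le_mul_of_nonneg_left k3 p2.le
    rw [k4] at k5 k6
    linarith
  · have hiN : i = iN := by
      rcases hi i with h1 | h1 | h1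
      · exact absurd h1 hi0
      · exact absurd h1 hj
      · exact h1
    subst hiN
    have e1 : 2 ^ s * (y.c * d i₀ + y.s * d iu + d i) -
        2 ^ s * (y.c * d' i₀ + y.s * d' iu + d' i) =
        2 ^ s * ((fn i₀ iu i y.c y.s d - fn i₀ iu i y.c y.s y.db) -
          (fn i₀ iu i y.c y.s d' - fn i₀ iu i y.c y.s y.db)) := by
      unfold fn
      ring
    rw [e1, abs_mul, abs_of_pos p3]
    have k1 := h.vn
    have k2 := h'.vn
    have k3 := abs_sub (fn i₀ iu i y.c y.s d - fn i₀ iu i y.c y.s y.db)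
      (fn i₀ iu i y.c y.s d' - fn i₀ iu i y.c y.s y.db)
    have k4 : (2 : ℝ) ^ s * (20 * 2 ^ w / 2 ^ (w + s)) = 20 := by
      rw [pow_add]
      field_simp
    have k5 := mul_le_mul_of_nonneg_left k1 p3.le
    have k6 := mul_le_mul_of_nonneg_left k2 p3.le
    have k7 := mul_le_mul_of_nonneg_left k3 p3.le
    rw [k4] at k5 k6
    linarith

/-- The constant of the visible part. -/
noncomputable def kv34 : ℝ := ((2 * ((9 + 40 + 7 : ℕ) : ℝ) + 1) ^ 3) ^ 3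

/-- **The visible part of an event of a plank zoom**: the exact points of the family determine the
boxes and the exact points of the zoom. -/
theorem pz_part34 {J : ℕ} (F : Fam 3 J) {i₀ iu iN : Fin 3} {w lam P J' : ℕ} {y : F.Ω → Pln}
    {A : F.Ω → Prop} (hA : IsLaw (cond F.p A True)) (h : w + J' ≤ J)
    (hz : PzF F i₀ iu iN J w lam P y A) (hP : P + J' ≤ J) (B : F.Ω → Prop) :
    ∃ B' : F.Ω → Prop, Sub B' (fun ω => B ω ∧ A ω) ∧
      Pe F.p (fun ω => B ω ∧ A ω) ≤ kv34 * Pe F.p B' ∧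
      (∃ φ : (Fin 3 → ℤ) × (ℕ × F.ζ) → Fin 3 → ℤ, ∀ ω, B' ω →
        (F.res A True hA).bvl (pkC lam (P - w) i₀ iu) (fun ω => fr (y ω)) ω =
          φ (ptr (F.res A True hA) J ω)) ∧
      ∃ φ : (Fin 3 → ℤ) × (ℕ × F.ζ) → (Fin 3 → ℤ) × (ℕ × (pzG F i₀ iu w lam P J' y A hA h).ζ),
        ∀ ω, B' ω → Fam.pt (pzG F i₀ iu w lam P J' y A hA h) ω =
          φ (ptr (F.res A True hA) J ω) := by
  classical
  obtain ⟨φv, hφv⟩ := hz.vis
  have hwP := hz.wP
  obtain ⟨B', hB', hPB', h1, h2⟩ := zm_vis (F.res A True hA) (w := w) (J' := J') (lam := P - w)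
    (r := J) h (by omega) (C := pkC lam (P - w) i₀ iu) (b := 9) (b' := 40)
    (fun ω => fr (y ω)) (fun ω => B ω ∧ A ω)
    (fun ω hω x x' hx i => by
      have hI := hz.inc ω hω.2
      have := pkc_bd34 (i₀ := i₀) (iu := iu) (show lam ≤ P - w by omega) (k := fr (y ω))
        hI.e_le hI.c_le hI.s_le hx i
      push_cast
      exact this)
    (fun u => fr (φv u)) (fun ω hω => by
      have := hφv ω hω.2
      change fr (y ω) = fr (φv (ptr F J ω))
      rw [← this])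
    (fun ω ω' hω hω' e i => by
      have e1 : y ω = y ω' := by
        rw [hφv ω hω.2, hφv ω' hω'.2]
        exact congrArg φv e
      have := pkc_vel34 hz.cov hwP (hz.inc ω hω.2) (e1 ▸ hz.inc ω' hω'.2) i
      push_cast
      change |(pkC lam (P - w) i₀ iu).L (fr (y ω)) (F.d ω) i -
        (pkC lam (P - w) i₀ iu).L (fr (y ω')) (F.d ω') i| ≤ 40
      rw [← e1]
      exact this)
  refine ⟨B', hB', ?_, h1, h2⟩
  have hA0 : 0 < Pe F.p A := by
    by_contra hcon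
    have h0 : Pe F.p A = 0 := le_antisymm (not_lt.1 hcon) (Pe_nonneg F.isLaw A)
    have h3 := hA.sum_one
    have h4 : Pe (cond F.p A True) (fun _ => True) = 1 := by
      rw [Pe_eq]
      simpa using h3
    rw [Pe_cond, h0, div_zero] at h4
    exact zero_ne_one h4
  have hPB2 : Pe (cond F.p A True) (fun ω => B ω ∧ A ω) ≤
      kv34 * Pe (cond F.p A True) B' := hPB'
  have e1 : ∀ D : F.Ω → Prop, Sub D A → Pe (cond F.p A True) D = Pe F.p D / Pe F.p A := by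
    intro D hD
    rw [Pe_cond]
    congr 1
    congr 1
    funext ω
    exact propext ⟨fun h => h.2, fun h => ⟨hD ω h, h⟩⟩
  rw [e1 _ (fun ω hω => hω.2), e1 _ (fun ω hω => (hB' ω hω).2)] at hPB2
  have k1 : Pe F.p (fun ω => B ω ∧ A ω) / Pe F.p A * Pe F.p A ≤
      (kv34 * (Pe F.p B' / Pe F.p A)) * Pe F.p A := mul_le_mul_of_nonneg_right hPB2 hA0.le
  have k2 : Pe F.p (fun ω => B ω ∧ A ω) / Pe F.p A * Pe F.p A =
      Pe F.p (fun ω => B ω ∧ A ω) := by field_simp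
  have k3 : (kv34 * (Pe F.p B' / Pe F.p A)) * Pe F.p A = kv34 * Pe F.p B' := by field_simp
  rw [k2, k3] at k1
  exact k1

/-- **ROX.** -/
theorem rox_thm : ROXStmt := by
  obtain ⟨C5, hC5, h5⟩ := zs5_thm
  have hkv : 1 ≤ kv34 := by
    unfold kv34
    norm_num
  refine ⟨max (48 * C5) kv34, le_max_of_le_right hkv, ?_⟩
  intro J F i₀ iu iN w lam P J' q x' v y A hA h hz hP hlq hS B μ hμ hμ8 hx hwx hv hR
  obtain ⟨B', hB', hPB', hφ1, hφ2⟩ := pz_part34 F hA h hz hP B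
  refine ⟨B', hB', ?_, ?_⟩
  · exact hPB'.trans (mul_le_mul_of_nonneg_right (le_max_right _ _) (Pe_nonneg F.isLaw _))
  have hsubA : Sub B' A := fun ω hω => (hB' ω hω).2
  have hz' := hz.sub hsubA
  obtain ⟨ψ, hψ⟩ := hz'.con
  have hR' : RotP i₀ iu 6 μ (Fam.pt (pzG F i₀ iu w lam P J' y A hA h))
      (slam (pzG F i₀ iu w lam P J' y A hA h) x') (pzG F i₀ iu w lam P J' y A hA h).d B' :=
    RotP.hered i₀ iu 6 μ _ _ _ B B' (fun ω hω => (hB' ω hω).1) hR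
  obtain ⟨n, s, ζ, h3⟩ := (zst_thm J Fr (F.res A True hA) w J' J h (pkC lam (P - w) i₀ iu)
    (fun ω => fr (y ω)) B' hφ1 hφ2).2.2 i₀ iu 6 μ x' (by norm_num) hx
    ⟨fun u => fr (ψ u), fun ω hω => by
      change fr (y ω) = fr (ψ (slam F w ω))
      rw [← hψ ω hω]⟩ hR'
  have hμ0 : 0 < μ := lt_of_lt_of_le (by positivity) hμ
  obtain ⟨μ', hμ'⟩ : ∃ μ', μ' = μ + (6 + 1) / 2 ^ J' := ⟨_, rfl⟩
  have hμ'8 : μ' ≤ 8 * μ := by
    rw [hμ']
    have : (6 + 1 : ℝ) / 2 ^ J' = 7 * (1 / 2 ^ J') := by ring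
    rw [this]
    linarith
  have hμ'0 : 0 ≤ μ' := by
    rw [hμ']
    positivity
  rw [← hμ'] at h3
  have hRP : RotP i₀ iu 6 μ' (Fam.pt F) (slam F v) (pv F i₀ iu lam (P - w) y) B' := by
    refine ⟨n, s, fun u => ζ (u.1, u.2.1, u.2.2 / 2 ^ (v - (w + x'))), fun ω hω => ?_⟩
    obtain ⟨k1, k2, k3⟩ := h3 ω hω
    refine ⟨k1, k2, ?_⟩
    have e1 := Pool.PZ.slam_coarse F hwx hv ω
    change |s (ptr F J ω) - ζ (slam F (w + x') ω)| ≤ μ' at k3
    rw [e1] at k3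
    exact k3
  have hfin := h5 J F i₀ iu iN J w lam P v y B' 6 μ' (by norm_num) hμ'0 (by linarith)
    (by omega) hv hz' hRP
  have hle : C5 * 6 * (μ' / 2 ^ lam + 2 ^ w / 2 ^ P) ≤
      max (48 * C5) kv34 * (μ / 2 ^ lam + 2 ^ w / 2 ^ P) := by
    have a1 : μ' / 2 ^ lam ≤ 8 * (μ / 2 ^ lam) := by
      rw [← mul_div_assoc]
      exact div_le_div_of_nonneg_right hμ'8 (by positivity)
    have a2 : (0 : ℝ) ≤ μ / 2 ^ lam := by positivity
    have a3 : (0 : ℝ) ≤ 2 ^ w / 2 ^ P := by positivity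
    calc C5 * 6 * (μ' / 2 ^ lam + 2 ^ w / 2 ^ P) ≤
          C5 * 6 * (8 * (μ / 2 ^ lam) + 8 * (2 ^ w / 2 ^ P)) := by
          refine mul_le_mul_of_nonneg_left (by linarith) (by linarith)
      _ = 48 * C5 * (μ / 2 ^ lam + 2 ^ w / 2 ^ P) := by ring
      _ ≤ _ := mul_le_mul_of_nonneg_right (le_max_left _ _) (by linarith)
  exact RotU.mono hle hle hfin

end Pool.PZ
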