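import Pool.Agent.H96.PZ.Stmts5
import Pool.Agent.H34.PZ.Rox
import Pool.Agent.H75.S6C.S2

/-!
# Row PZE: the rotation of the plank zoom contradicts the number `rot`
-/

set_option autoImplicit false

namespace Pool.PZ

open Finset Real
open Pool.Agent.H49.Ent Pool.Agent.H32.Dense Pool.STK Pool.KA Pool.KSAT Pool.K2S Pool.PB Pool.KS6
open Pool.ZCL Pool.S6C

/-- **PZE.** -/
theorem pze_thm : PZEStmt := by
  intro S a R h₁ i₀ c s₂ r D σ hC wx hwx0 hwx1 z z' x g y hz hz1 hzz hx hx1 hg hg1 hy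
  obtain ⟨C, hC1, hrox⟩ := rox_thm
  have hrow := hC.row 1 one_pos le_rfl hC.D1
  obtain ⟨cc, hcc, J₁, hneg⟩ := Clp.neg_base
    (fun J F => capS_hered (fun s J F => qRot_hered i₀ 1 wx s J F) z J F)
    (by
      have := (hrow.rot wx hwx0 hwx1).2 (z - (σ 1).rot wx) (by linarith)
      have e : (σ 1).rot wx + (z - (σ 1).rot wx) = z := by ring
      rw [e] at this
      exact this)
  obtain ⟨J₂, hJ₂⟩ := Pool.S6K.exp_small (κ := cc / 4) (C := C) (by linarith only [hcc]) hC1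
  obtain ⟨k, hk⟩ := pow_unbounded_of_one_lt (2 * C) (by norm_num : (1 : ℝ) < 2)
  obtain ⟨J₃, hJ₃⟩ := exists_nat_gt (((k : ℝ) + 4) / (z' - z) + 8 / (g * y))
  refine ⟨cc / 4, by linarith only [hcc], cc / 4, by linarith, max J₁ (max J₂ J₃), ?_⟩
  intro J hJ F A hS iu iN w lam P q J' yz hPz hP hlq hSlo hyJ hwx hl1 hl2 hA h' B hB hRot
  have hJ1 : J₁ ≤ J := (le_max_left _ _).trans hJ
  have hJ2 : J₂ ≤ J := (le_max_left _ _).trans ((le_max_right _ _).trans hJ)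
  have hJ3 : J₃ ≤ J := (le_max_right _ _).trans ((le_max_right _ _).trans hJ)
  have hJr : ((k : ℝ) + 4) / (z' - z) + 8 / (g * y) < J :=
    hJ₃.trans_le (by exact_mod_cast hJ3)
  have q1 : 0 < ((k : ℝ) + 4) / (z' - z) := div_pos (by positivity) (by linarith only [hzz])
  have q2 : 0 < 8 / (g * y) := by positivity
  have hJz : (k : ℝ) + 4 < J * (z' - z) := by
    have : ((k : ℝ) + 4) / (z' - z) < J := by linarith only [hJr, q2]
    rwa [div_lt_iff₀ (by linarith only [hzz])] at this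
  have hJg : 8 < J * (g * y) := by
    have : 8 / (g * y) < J := by linarith only [hJr, q1]
    rwa [div_lt_iff₀ (by positivity)] at this
  have hJ0 : (0 : ℝ) ≤ J := Nat.cast_nonneg J
  have hJ'0 : (0 : ℝ) ≤ J' := Nat.cast_nonneg J'
  have hJ'J : J' ≤ J := by omega
  have hrt0 : 0 ≤ (σ 1).rot wx := by
    by_contra hneg'
    push Not at hneg'
    refine Clp.not_false hC.ne (Clp.mono (J₂ := 0) ((hrow.rot wx hwx0 hwx1).2
      (-(σ 1).rot wx) (by linarith only [hneg'])) ?_)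
    intro J _ F A h
    exact h (Or.inl (by linarith only))
  have hz0 : 0 < z := by linarith only [hz, hrt0]
  -- the precision
  obtain ⟨G, hG⟩ : ∃ G, G = ⌊g / 2 * (J' : ℝ)⌋₊ := ⟨_, rfl⟩
  obtain ⟨Z, hZ⟩ : ∃ Z, Z = ⌊z * (J : ℝ)⌋₊ := ⟨_, rfl⟩
  have G1 : g / 2 * (J' : ℝ) < G + 1 := by rw [hG]; exact Nat.lt_floor_add_one _
  have Z1 : (Z : ℝ) ≤ z * J := by rw [hZ]; exact Nat.floor_le (by positivity)
  have hGJ : G ≤ J' := by
    have e1 : g / 2 * (J' : ℝ) ≤ 1 * (J' : ℝ) := mul_le_mul_of_nonneg_right (by linarith only [hg1]) hJ'0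
    rw [hG]
    refine (Nat.floor_le_floor e1).trans ?_
    rw [one_mul, Nat.floor_natCast]
  have hgJ' : 4 < g / 2 * (J' : ℝ) := by
    have e1 : g / 2 * (y * J) ≤ g / 2 * (J' : ℝ) :=
      mul_le_mul_of_nonneg_left hyJ (by linarith only [hg])
    linarith only [hJg, e1]
  have hG3 : 3 ≤ G := by
    have : (3 : ℝ) < (G : ℝ) := by linarith only [G1, hgJ']
    exact le_of_lt (by exact_mod_cast this)
  have c1 : Z + (k + 1) ≤ lam + G := by
    have : ((Z + (k + 1) : ℕ) : ℝ) ≤ ((lam + G : ℕ) : ℝ) := by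
      push_cast
      linarith only [hl1, hJz, G1, Z1]
    exact_mod_cast this
  have c2 : Z + (k + 1) + w ≤ P := by
    have : ((Z + (k + 1) + w : ℕ) : ℝ) ≤ (P : ℝ) := by
      push_cast
      linarith only [hl2, hJz, Z1]
    exact_mod_cast this
  have hwx1r : (wx : ℝ) ≤ 1 := by exact_mod_cast hwx1
  have hwx0r : (0 : ℝ) ≤ wx := by exact_mod_cast hwx0
  have hv : ⌊(wx : ℝ) * J⌋₊ ≤ J := floor_row_one hwx1r J
  have hxJ' : ⌊x * (J' : ℝ)⌋₊ ≤ J' := floor_row_one hx1 J'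
  have hwv : w + ⌊x * (J' : ℝ)⌋₊ ≤ ⌊(wx : ℝ) * J⌋₊ := by
    refine Nat.le_floor ?_
    push_cast
    have := Nat.floor_le (show 0 ≤ x * (J' : ℝ) by positivity)
    linarith only [hwx, this]
  have hμ1 : (1 : ℝ) / 2 ^ J' ≤ 1 / 2 ^ G := inv_mono hGJ
  have hμ8 : 8 * ((1 : ℝ) / 2 ^ G) ≤ 1 := by
    have e1 : (1 : ℝ) / 2 ^ G ≤ 1 / 2 ^ 3 := inv_mono hG3
    norm_num at e1 ⊢
    linarith only [e1]
  obtain ⟨B', hB', hPB', hRU⟩ := hrox J F i₀ iu iN w lam P J' q ⌊x * (J' : ℝ)⌋₊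
    ⌊(wx : ℝ) * J⌋₊ yz A hA h' hPz hP hlq hSlo B (1 / 2 ^ G) hμ1 hμ8 hxJ' hwv hv (by
      have e6 : (2 * ((3 : ℕ) : ℝ)) = 6 := by norm_num
      unfold RotZ at hRot
      rw [e6, ← hG] at hRot
      exact hRot)
  -- the event
  have hC0 : 0 < C := by linarith only [hC1]
  have hA0 : 0 < Pe F.p A := lt_of_lt_of_le (Real.exp_pos _) (hC.st _ _ _ _ hS).2.2.2
  have hsub : Sub B' A := fun ω hω => (hB' ω hω).2
  have hPBA : Pe F.p (fun ω => B ω ∧ A ω) = Pe (cond F.p A True) B * Pe F.p A := by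
    rw [Pe_cond, div_mul_cancel₀ _ hA0.ne']
    congr 1
    funext ω
    exact propext ⟨fun h => ⟨h.2, h.1⟩, fun h => ⟨h.2, h.1⟩⟩
  have hbig : Real.exp (-(cc / 2 * J)) * Pe F.p A ≤ Pe F.p B' := by
    have e1 : Real.exp (-(cc / 4 * J)) ≤ Real.exp (-(cc / 4 * (J' : ℝ))) := by
      refine Real.exp_le_exp.2 ?_
      have : (J' : ℝ) ≤ J := by exact_mod_cast hJ'J
      nlinarith only [hcc, this]
    have e2 : Real.exp (-(cc / 4 * J)) ≤ Pe (cond F.p A True) B := e1.trans hB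
    have e3 := hJ₂ J hJ2
    have e4 : Real.exp (-(cc / 2 * J)) = Real.exp (-(cc / 4 * J)) * Real.exp (-(cc / 4 * J)) := by
      rw [← Real.exp_add]
      congr 1
      ring
    have e5 : Real.exp (-(cc / 2 * J)) * Pe F.p A ≤
        1 / C * (Pe (cond F.p A True) B * Pe F.p A) := by
      rw [e4, mul_assoc]
      refine mul_le_mul e3 (mul_le_mul_of_nonneg_right e2 hA0.le) (by positivity) (by positivity)
    rw [← hPBA] at e5
    refine e5.trans ?_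
    rw [one_div, inv_mul_le_iff₀ hC0]
    exact hPB'
  have hSc : S.St cc J F B' := by
    have h1 := S.res (τ' := cc / 2) (by linarith only [hcc]) hS hsub hbig
    exact S.mono (by linarith only [hcc]) h1
  refine hneg J hJ1 F B' hSc (Or.inr ⟨hz1, ?_⟩)
  -- the rotation
  have k0 : (0 : ℝ) < 1 / 2 ^ Z := by positivity
  have k1 : (1 : ℝ) / 2 ^ G / 2 ^ lam ≤ 1 / 2 ^ (Z + (k + 1)) := by
    rw [div_div, ← pow_add]
    exact inv_mono (by omega)
  have k2 : (2 : ℝ) ^ w / 2 ^ P ≤ 1 / 2 ^ (Z + (k + 1)) := by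
    rw [div_le_div_iff₀ (by positivity) (by positivity), one_mul, ← pow_add]
    exact pow_le_pow_right₀ (by norm_num) (by omega)
  have k3 : C * (1 / 2 ^ G / 2 ^ lam + 2 ^ w / 2 ^ P) ≤ 1 / 2 ^ Z := by
    have e1 : C * (1 / 2 ^ G / 2 ^ lam + 2 ^ w / 2 ^ P) ≤
        C * (1 / 2 ^ (Z + (k + 1)) + 1 / 2 ^ (Z + (k + 1))) :=
      mul_le_mul_of_nonneg_left (add_le_add k1 k2) hC0.le
    have e2 : (1 : ℝ) / 2 ^ (Z + (k + 1)) = 1 / 2 ^ Z * (1 / 2 ^ k) / 2 := by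
      rw [pow_add, pow_succ]
      field_simp
    have e3 : C * (1 / 2 ^ (Z + (k + 1)) + 1 / 2 ^ (Z + (k + 1))) =
        1 / 2 ^ Z * (C * (1 / 2 ^ k)) := by
      rw [e2]
      ring
    have e4 : C * (1 / 2 ^ k) ≤ 1 := by
      rw [mul_one_div, div_le_one (by positivity)]
      linarith only [hC1, hk]
    rw [e3] at e1
    refine e1.trans ?_
    calc 1 / 2 ^ Z * (C * (1 / 2 ^ k)) ≤ 1 / 2 ^ Z * 1 := mul_le_mul_of_nonneg_left e4 k0.le
      _ = 1 / 2 ^ Z := mul_one _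
  have hfin : RotU i₀ (1 / 2 ^ Z) (1 / 2 ^ Z) (Fam.pt F) (slam F ⌊(wx : ℝ) * J⌋₊) F.d B' :=
    RotU.mono k3 k3 hRU
  unfold qRot
  rw [ptq_one F, ← hZ]
  exact hfin

end Pool.PZ
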