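import Pool.Agent.H96.PZ.Stmts2

/-!
# Row SELP: selection of the rows `P₀`, `P₁`
-/

set_option autoImplicit false

namespace Pool.PZ

open Set MeasureTheory Topology

/-- The monotone extension of `ρ` to the line. -/
noncomputable def mex34 (ρ : ℚ → ℝ) (x : ℝ) : ℝ :=
  sSup (insert (ρ 0) (ρ '' {q : ℚ | 0 ≤ q ∧ q ≤ 1 ∧ (q : ℝ) ≤ x}))

lemma mex34_bdd {ρ : ℚ → ℝ} (hρ : ∀ u v : ℚ, 0 ≤ u → u ≤ v → v ≤ 1 → ρ u ≤ ρ v) (x : ℝ) :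
    BddAbove (insert (ρ 0) (ρ '' {q : ℚ | 0 ≤ q ∧ q ≤ 1 ∧ (q : ℝ) ≤ x})) := by
  refine ⟨ρ 1, ?_⟩
  rintro y (rfl | ⟨q, ⟨h0, h1, -⟩, rfl⟩)
  · exact hρ 0 1 le_rfl zero_le_one le_rfl
  · exact hρ q 1 h0 h1 le_rfl

lemma mex34_mono {ρ : ℚ → ℝ} (hρ : ∀ u v : ℚ, 0 ≤ u → u ≤ v → v ≤ 1 → ρ u ≤ ρ v) :
    Monotone (mex34 ρ) := by
  intro x y hxy
  refine csSup_le_csSup (mex34_bdd hρ y) (insert_nonempty _ _) ?_
  refine insert_subset_insert (image_mono ?_)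
  rintro q ⟨h0, h1, h2⟩
  exact ⟨h0, h1, h2.trans hxy⟩

lemma mex34_rat {ρ : ℚ → ℝ} (hρ : ∀ u v : ℚ, 0 ≤ u → u ≤ v → v ≤ 1 → ρ u ≤ ρ v) {u : ℚ}
    (h0 : 0 ≤ u) (h1 : u ≤ 1) : mex34 ρ u = ρ u := by
  apply le_antisymm
  · refine csSup_le (insert_nonempty _ _) ?_
    rintro y (rfl | ⟨q, ⟨q0, q1, q2⟩, rfl⟩)
    · exact hρ 0 u le_rfl h0 h1
    · exact hρ q u q0 (by exact_mod_cast q2) h1
  · exact le_csSup (mex34_bdd hρ u) (mem_insert_of_mem _ ⟨u, ⟨h0, h1, le_rfl⟩, rfl⟩)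

lemma ctq34 {ρ : ℚ → ℝ} (hρ : ∀ u v : ℚ, 0 ≤ u → u ≤ v → v ≤ 1 → ρ u ≤ ρ v) {x : ℝ}
    (hx0 : 0 < x) (hx1 : x < 1) (hc : ContinuousAt (mex34 ρ) x) : CtQ ρ x := by
  intro ε hε
  obtain ⟨δ, hδ, h⟩ := Metric.continuousAt_iff.mp hc (ε / 2) (by positivity)
  refine ⟨min δ (min x (1 - x)), lt_min hδ (lt_min hx0 (by linarith)), ?_⟩
  have key : ∀ u : ℚ, |(u : ℝ) - x| < min δ (min x (1 - x)) → |ρ u - mex34 ρ x| < ε / 2 := by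
    intro u hu
    obtain ⟨h1, h2⟩ := lt_min_iff.mp hu
    obtain ⟨h2, h3⟩ := lt_min_iff.mp h2
    have hu0 : (0 : ℝ) < u := by have := (abs_lt.mp h2).1; linarith
    have hu1 : (u : ℝ) < 1 := by have := (abs_lt.mp h3).2; linarith
    have := h (x := (u : ℝ)) (by simpa [Real.dist_eq] using h1)
    rwa [Real.dist_eq, mex34_rat hρ (by exact_mod_cast hu0.le) (by exact_mod_cast hu1.le)] at this
  intro u v hu hv
  have hu' := abs_lt.mp (key u hu)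
  have hv' := abs_lt.mp (key v hv)
  exact abs_le.mpr ⟨by linarith [hu'.1, hv'.2], by linarith [hu'.2, hv'.1]⟩

/-- **SELP.** -/
theorem selp_thm : SELPStmt := by
  intro K ρ s hK hs hρ
  set f := mex34 ρ with hf
  have hmono : Monotone f := mex34_mono hρ
  have hcount : {x | ¬ ContinuousAt f x}.Countable := hmono.countable_not_continuousAt
  set K' : Set ℝ := {P ∈ K | ContinuousAt f (P - s)} with hK'
  have hbad : {P ∈ K | ¬ ContinuousAt f (P - s)}.Countable := by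
    have : {P ∈ K | ¬ ContinuousAt f (P - s)} ⊆ (fun x => x + s) '' {x | ¬ ContinuousAt f x} := by
      rintro P ⟨-, hP⟩
      exact ⟨P - s, hP, by ring⟩
    exact (hcount.image _).mono this
  have hK'c : ¬ K'.Countable := by
    intro hcc
    have hsub : K ⊆ K' ∪ {P ∈ K | ¬ ContinuousAt f (P - s)} := by
      intro P hP
      by_cases h : ContinuousAt f (P - s)
      · exact Or.inl ⟨hP, h⟩
      · exact Or.inr ⟨hP, h⟩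
    exact hK (((hcc.union hbad).mono hsub).measure_zero _)
  have hiso := countable_setOfPred_isolated_right_within (s := K')
  have hex : ∃ P₀ ∈ K', 𝓝[K' ∩ Ioi P₀] P₀ ≠ ⊥ := by
    by_contra hno
    push Not at hno
    have hsub : K' ⊆ {x | x ∈ K' ∧ 𝓝[K' ∩ Ioi x] x = ⊥} := fun x hx => ⟨hx, hno x hx⟩
    exact hK'c (hiso.mono hsub)
  obtain ⟨P₀, hP₀, hne⟩ := hex
  refine ⟨P₀, hP₀.1, ctq34 hρ (hs P₀ hP₀.1).1 (hs P₀ hP₀.1).2 hP₀.2, fun ε hε => ?_⟩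
  have hmem : P₀ ∈ closure (K' ∩ Ioi P₀) := mem_closure_iff_nhdsWithin_neBot.mpr ⟨hne⟩
  obtain ⟨P₁, ⟨hP₁, hlt⟩, hd⟩ := Metric.mem_closure_iff.mp hmem ε hε
  refine ⟨P₁, hP₁.1, hlt, ?_, ctq34 hρ (hs P₁ hP₁.1).1 (hs P₁ hP₁.1).2 hP₁.2⟩
  rw [Real.dist_eq, abs_lt] at hd
  linarith [hd.1]

end Pool.PZ
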